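import Pool.Agent.H17.CI.TargetsB
import Pool.Agent.H17.CI.TargetsC
import Pool.Agent.H17.VG.GG

/-!
# MP_70ba79_ag: one more step (row SMT of the board `ci_modules`)
-/

set_option autoImplicit false

namespace Pool.Agent.H33.CI

open MvPolynomial SC Pool.Agent.H27.LV Pool.Agent.H17.VG Pool.Agent.H17.CI

section

variable {R K : Type} [Field R] [Field K] [Algebra R K] {n : ℕ} {ι : Type}

lemma opV_comb (τ τ' : Op R K n) (a b : K) (z : Fin (n + 1) → K) :
    opV (a • τ + b • τ') z = a • opV τ z + b • opV τ' z := by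
  funext i
  have h1 : (a • τ + b • τ').1 (z i) = a * τ.1 (z i) + b * τ'.1 (z i) := rfl
  have h2 : ∀ j, (a • τ + b • τ').2 i j = a * τ.2 i j + b * τ'.2 i j := fun j => rfl
  unfold opV
  rw [h1]
  simp only [h2, Pi.add_apply, Pi.smul_apply, smul_eq_mul, add_mul, Finset.sum_add_distrib]
  rw [mul_sub, mul_sub, Finset.mul_sum, Finset.mul_sum]
  simp only [mul_assoc]
  ring

/-- the symbols of the operators with velocity in `U` -/
noncomputable def syT (hSY : T_SY) {e : ι → ℕ} {F : Tup ι K n} {D : Derivation R K K}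
    (hS : SysT e F D) (x : Fin (n + 1) → K)
    (U : Submodule K (Fin (n + 1) → K)) : Submodule K (Tup ι K n) where
  carrier := {G | ∃ (τ : Op R K n) (l : ι → K), Sym F τ l G ∧ opV τ x ∈ U}
  zero_mem' := by
    obtain ⟨τ, l, h⟩ := hS.surj 0 fun i => isHomogeneous_zero _ _ _
    refine ⟨(0 : K) • τ + (0 : K) • τ, (0 : K) • l + (0 : K) • l, ?_, ?_⟩
    · have h1 := (hSY R K n ι e F τ τ l l 0 0 0 0 hS.homog h h).1
      rwa [smul_zero, add_zero] at h1
    · rw [opV_comb, zero_smul, add_zero]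
      exact zero_mem _
  add_mem' := by
    rintro G G' ⟨τ, l, h1, h2⟩ ⟨τ', l', h3, h4⟩
    refine ⟨(1 : K) • τ + (1 : K) • τ', (1 : K) • l + (1 : K) • l', ?_, ?_⟩
    · have h5 := (hSY R K n ι e F τ τ' l l' G G' 1 1 hS.homog h1 h3).1
      rwa [one_smul K G, one_smul K G'] at h5
    · rw [opV_comb, one_smul, one_smul]
      exact add_mem h2 h4
  smul_mem' := by
    rintro a G ⟨τ, l, h1, h2⟩
    refine ⟨a • τ + (0 : K) • τ, a • l + (0 : K) • l, ?_, ?_⟩
    · have h5 := (hSY R K n ι e F τ τ l l G G a 0 hS.homog h1 h1).1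
      rwa [zero_smul K G, add_zero (a • G)] at h5
    · rw [opV_comb, zero_smul, add_zero]
      exact Submodule.smul_mem _ _ h2

lemma sym_D {e : ι → ℕ} {F : Tup ι K n} {D : Derivation R K K} (hS : SysT e F D) :
    Sym F ((D, 0) : Op R K n) 0 0 := by
  refine ⟨fun j => rfl, fun i => ?_⟩
  unfold opF
  simp [hS.base i]

lemma DxT_mem {e : ι → ℕ} {F : Tup ι K n} {D : Derivation R K K} (hS : SysT e F D)
    (x : Fin (n + 1) → K) (W : Submodule K (Tup ι K n)) :
    (fun i => D (x i)) ∈ UtT R F x W := by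
  refine Submodule.subset_span (Or.inl ⟨((D, 0) : Op R K n), 0, 0, zero_mem _, sym_D hS, ?_⟩)
  funext i
  simp [opV]

lemma xT_mem (F : Tup ι K n) (x : Fin (n + 1) → K) (W : Submodule K (Tup ι K n)) :
    x ∈ UtT R F x W := Submodule.subset_span (Or.inr rfl)

/-- the linear map from coefficients to families `lin ξ * frmT q` -/
noncomputable def lf (e : ι → ℕ) (ξ : Fin (n + 1) → K) :
    ((Σ i, Mon (n + 1) (e i)) → K) →ₗ[K] Tup ι K n where
  toFun q := fun i => lin ξ * frmT q i
  map_add' q q' := by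
    funext i
    have h := frm_smul_add (n := n) (1 : K) 1 (fun M => q ⟨i, M⟩) (fun M => q' ⟨i, M⟩)
    simp only [one_mul, C_1] at h
    have h1 : frmT (q + q') i = frmT q i + frmT q' i := h
    rw [h1, mul_add]
    rfl
  map_smul' a q := by
    funext i
    have h := frm_smul_add (n := n) a 0 (fun M => q ⟨i, M⟩) (fun M => q ⟨i, M⟩)
    simp only [zero_mul, C_0, add_zero] at h
    have h1 : frmT (a • q) i = C a * frmT q i := h
    rw [h1, RingHom.id_apply, Pi.smul_apply, smul_eq_C_mul]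
    ring

end

theorem pf_SMT (hTPT : T_TPT) (hEVT : T_EVT) (hSY : T_SY) (hWDT : Pool.Agent.H17.CI.T_WDT) :
    Pool.Agent.H17.CI.T_SMT := by
  intro R k K _ _ _ _ _ _ n s ι _ e F D Z x hS hP Q hfin
  classical
  by_contra hcon
  push Not at hcon
  obtain ⟨U, hU⟩ : ∃ U, U = UtT R F x (PQT x fun j => upT K (frmT (Q j))) := ⟨_, rfl⟩
  rw [← hU] at hfin hcon
  have hDx : (fun i => D (x i)) ∈ U := hU ▸ DxT_mem hS x _
  have hx : x ∈ U := hU ▸ xT_mem F x _
  -- generators
  have hgen : ∀ (ξ : Fin (n + 1) → K) (p : Σ i, Mon (n + 1) (e i)), ∑ i, ξ i * x i = 0 →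
      (fun i => lin ξ * frmT (fun p' => if p = p' then (1 : K) else 0) i) ∈ syT hSY hS x U := by
    intro ξ p hξ
    have hG : (fun i => lin ξ * frmT (fun p' => if p = p' then (1 : K) else 0) i) =
        fun i => lin ξ * upT K (frmT (fun p' => if p = p' then (1 : k) else 0)) i := by
      funext i
      congr 1
      unfold upT frmT
      rw [Pool.Agent.H17.VG.up_frm]
      congr 1
      funext M
      simp only
      split_ifs
      · rw [map_one]
      · rw [map_zero]
    obtain ⟨τ, l, hτ⟩ := hS.surj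
      (fun i => lin ξ * frmT (fun p' => if p = p' then (1 : K) else 0) i) (fun i => by
        have h1 := (isHomogeneous_lin ξ).mul
          (frm_homog (n := n) (fun M : Mon (n + 1) (e i) =>
            if p = ⟨i, M⟩ then (1 : K) else 0))
        rw [Nat.add_comm (e i) 1]
        exact h1)
    refine ⟨τ, l, hτ, ?_⟩
    rw [hG] at hτ
    exact hcon _ ξ τ l hξ hτ
  have hspan : Submodule.span K {G : Tup ι K n | ∃ (ξ : Fin (n + 1) → K)
      (q : (Σ i, Mon (n + 1) (e i)) → K), ∑ i, ξ i * x i = 0 ∧ G = fun i => lin ξ * frmT q i} ≤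
        syT hSY hS x U := by
    rw [Submodule.span_le]
    rintro G ⟨ξ, q, hξ, rfl⟩
    have h1 := LinearMap.pi_apply_eq_sum_univ (lf e ξ) q
    have h2 : lf e ξ q ∈ syT hSY hS x U := by
      rw [h1]
      exact Submodule.sum_mem _ fun p _ => Submodule.smul_mem _ _ (hgen ξ p hξ)
    exact h2
  have htop := hTPT R K n ι e F D Z x hS hP
  have hle : TxT Z F x ≤ U := by
    rw [← htop]
    unfold UtT
    rw [Submodule.span_le]
    rintro w (⟨τ, l, G, h0, h1, rfl⟩ | h)
    · obtain ⟨τ', l', h2, h3⟩ := hspan h0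
      obtain ⟨c, hc⟩ := hWDT R K n ι e F D hS τ τ' l l' G h1 h2
      rw [hc x]
      exact add_mem h3 (Submodule.smul_mem _ _ hDx)
    · rw [Set.mem_singleton_iff.1 h]
      exact hx
  have h1 := Submodule.finrank_mono hle
  have h2 := (hEVT R K n ι e F D Z x hS hP).2.2.2.1
  omega

end Pool.Agent.H33.CI
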